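import Pool.Agent.P.MP_63735c_ag.SPExt2
import Pool.Agent.P.MP_63735c_ag.SPMax
import Pool.Agent.P.MP_c4558b_ag.NLMain

open MeasureTheory Topology Pool.Agent.SPF Pool.Agent.NL

namespace Pool.Agent.Results.MP_c4558b_ag.Leaves

theorem result (n : ℕ) (hn : 1 ≤ n) (X : Type) [TopologicalSpace X] [T2Space X] [CompactSpace X]
    [MeasurableSpace X] [BorelSpace X] (A : Atlas X (2 * n))
    (hinj : ∀ i, Set.InjOn (A.p i) (A.C i).W) (μ : Measure X) (hμ : IsVolume A μ)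
    (F : X → ℝ) (hF : IsDensity n A F) (h0 : ∫ x, F x ∂μ = 0)
    (i : A.ι) (z : E (2 * n)) (hz : z ∈ (A.C i).W) (hr : n ≤ ((A.C i).η z).rank) :
    ∃ (T : Set (E n)) (Ψ : E n × E n → X), IsOpen T ∧ 0 ∈ T ∧ Ψ (0, 0) = A.p i z ∧
      A.IsUnif T Ψ ∧
      ∀ᵐ b ∂volume.restrict T, (∃ T' ∈ 𝓝 b, IsFibred Ψ T') ∨ (Recurrent Ψ b ∧
        ∃ Λ : Submodule ℤ (E n), DiscreteTopology Λ ∧ Submodule.span ℝ (Λ : Set (E n)) ≠ ⊤ ∧
          ∀ τ τ', Ψ (b, τ) = Ψ (b, τ') ↔ τ - τ' ∈ Λ) := by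
  have := vol_finite hμ
  have := vol_pos hμ
  have hI := A.iso_of_integral rfl hn μ F hF h0
  have hH : ∀ i, (A.C i).Hol n := fun i =>
    Chart.hol_of_S rfl (hI i) (A.S_eq_zero rfl hI i)
  obtain ⟨T, Ψ, hT, h0T, he, h⟩ :=
    A.exists_unif rfl hI hH (fun i _ hz hr => A.exists_goodAt rfl hI hH i hz hr) i hz hr
  exact ⟨T, Ψ, hT, h0T, he, h, dichotomy_sharp rfl hinj hμ h hT⟩

end Pool.Agent.Results.MP_c4558b_ag.Leaves
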